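import Mathlib

/-! # MP_edeaa2_an: forms violating the conjecture of Cassels and Swinnerton-Dyer are semistable

Let `l 1, ..., l d` be the linear forms given by the rows of a real invertible matrix `g` whose
product is bounded away from zero at the nonzero integer points, or more generally the rows of a
matrix `h` in the closure of the orbit of `g`. Then the forms are semistable with respect to the
rational structure:

1. for every rational subspace `W` and every set `S` of forms, the real span of the vectors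
   `(l i w)`, `i ∈ S`, for `w ∈ W` has dimension at least `(dim W) |S| / d`, and more than that if
   `d` is prime, `W` is proper and nonzero and `S` is proper and nonempty;
2. for every space `R` of linear forms with rational coefficients, the intersection of its real span
   with the span of the forms in `S` has dimension at most `(dim R) |S| / d`;
3. a nonzero real combination of `m` of the forms has at least `d / m` coefficients which are
   linearly independent over `ℚ`;
4. a nonzero real point at which `m` of the forms vanish has at least `d / (d - m)` coordinates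
   which are linearly independent over `ℚ`.
5. The inequality of 1 for `n` forms in `d` variables whose product is at least `ν |x| ^ (-κ)`, with
   `n + κ` in place of `d`.

The forms given by a totally real number field of degree `d` and a subfield of degree `k` show that
equality is possible in 1 if `d` is not prime. The proof is Dirichlet's box principle on `W`. -/

set_option autoImplicit false

open Finset Module

namespace Pool.Agent.Results.MP_edeaa2_an.Semistability

/-- the product of the linear forms given by the rows of `g`, at an integer point -/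
noncomputable def F {n d : ℕ} (g : Matrix (Fin n) (Fin d) ℝ) (x : Fin d → ℤ) : ℝ :=
  ∏ i : Fin n, ∑ j : Fin d, g i j * (x j : ℝ)

/-- The rank of the forms `l i`, `i ∈ S`, on the rational subspace `W`: the dimension of the real
span of the vectors `(l i w)`, `i ∈ S`, for `w ∈ W`. -/
noncomputable def rk {n d : ℕ} (g : Matrix (Fin n) (Fin d) ℝ) (S : Finset (Fin n))
    (W : Submodule ℚ (Fin d → ℚ)) : ℕ :=
  Module.finrank ℝ (Submodule.span ℝ
    {v : S → ℝ | ∃ w ∈ W, ∀ i : S, v i = ∑ j : Fin d, g i j * ((w j : ℚ) : ℝ)})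

/-- the real span of a rational subspace -/
noncomputable def realSpan {d : ℕ} (R : Submodule ℚ (Fin d → ℚ)) : Submodule ℝ (Fin d → ℝ) :=
  Submodule.span ℝ {v : Fin d → ℝ | ∃ q ∈ R, ∀ j : Fin d, v j = ((q j : ℚ) : ℝ)}

/-- the real span of the rows of `g` with indices in `S` -/
noncomputable def rowSpan {n d : ℕ} (g : Matrix (Fin n) (Fin d) ℝ) (S : Finset (Fin n)) :
    Submodule ℝ (Fin d → ℝ) :=
  Submodule.span ℝ {v : Fin d → ℝ | ∃ i ∈ S, v = g i}

/-! ### Dirichlet's theorem for `r` real forms in `k` variables -/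

theorem dirichlet (r k : ℕ) (hk : 0 < k) (p : Fin r → Fin k → ℝ) :
    ∃ C : ℝ, 0 < C ∧ ∀ T : ℕ, 1 ≤ T → ∃ u : Fin k → ℤ, u ≠ 0 ∧
      (∀ j, |(u j : ℝ)| ≤ (T : ℝ) ^ r) ∧
      ∀ a, |∑ j, p a j * (u j : ℝ)| ≤ C * (T : ℝ) ^ r / (T : ℝ) ^ k := by
  set C0 : ℝ := 1 + ∑ a, ∑ j, |p a j| with hC0
  have hsum : ∀ a, ∑ j, |p a j| ≤ C0 - 1 := by
    intro a
    have := Finset.single_le_sum (f := fun a => ∑ j, |p a j|)
      (fun a _ => Finset.sum_nonneg fun j _ => abs_nonneg (p a j)) (Finset.mem_univ a)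
    linarith
  have hC0pos : 0 < C0 := by
    have : 0 ≤ ∑ a, ∑ j, |p a j| :=
      Finset.sum_nonneg fun a _ => Finset.sum_nonneg fun j _ => abs_nonneg _
    linarith
  refine ⟨2 * C0, by positivity, ?_⟩
  intro T hT
  have hTpos : (0 : ℝ) < T := by exact_mod_cast hT
  set N : ℕ := T ^ r with hN
  set M : ℕ := T ^ k with hM
  have hNpos : 0 < N := by positivity
  have hMpos : 0 < M := by positivity
  have hNR : (0 : ℝ) < N := by exact_mod_cast hNpos
  have hMR : (0 : ℝ) < M := by exact_mod_cast hMpos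
  -- the scaled value
  let t : (Fin k → Fin (N + 1)) → Fin r → ℝ := fun u a =>
    ((∑ j, p a j * ((u j : ℕ) : ℝ)) + C0 * N) / (2 * C0 * N) * M
  have hP : ∀ (u : Fin k → Fin (N + 1)) (a : Fin r),
      |∑ j, p a j * ((u j : ℕ) : ℝ)| ≤ (C0 - 1) * N := by
    intro u a
    calc |∑ j, p a j * ((u j : ℕ) : ℝ)| ≤ ∑ j, |p a j * ((u j : ℕ) : ℝ)| :=
          Finset.abs_sum_le_sum_abs _ _
      _ ≤ ∑ j, |p a j| * N := by
          apply Finset.sum_le_sum
          intro j _
          rw [abs_mul]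
          apply mul_le_mul_of_nonneg_left _ (abs_nonneg _)
          rw [abs_of_nonneg (by positivity)]
          exact_mod_cast Nat.lt_succ_iff.mp (u j).isLt
      _ = (∑ j, |p a j|) * N := by rw [Finset.sum_mul]
      _ ≤ (C0 - 1) * N := mul_le_mul_of_nonneg_right (hsum a) hNR.le
  have ht0 : ∀ u a, 0 ≤ t u a := by
    intro u a
    have h1 := (abs_le.mp (hP u a)).1
    have : 0 ≤ (∑ j, p a j * ((u j : ℕ) : ℝ)) + C0 * N := by nlinarith
    positivity
  have ht1 : ∀ u a, t u a < M := by
    intro u a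
    have h1 := (abs_le.mp (hP u a)).2
    have h2 : ((∑ j, p a j * ((u j : ℕ) : ℝ)) + C0 * N) / (2 * C0 * N) < 1 := by
      rw [div_lt_one (by positivity)]
      nlinarith
    calc t u a = ((∑ j, p a j * ((u j : ℕ) : ℝ)) + C0 * N) / (2 * C0 * N) * M := rfl
      _ < 1 * M := mul_lt_mul_of_pos_right h2 hMR
      _ = M := one_mul _
  let f : (Fin k → Fin (N + 1)) → (Fin r → Fin M) := fun u a =>
    ⟨⌊t u a⌋₊, (Nat.floor_lt (ht0 u a)).mpr (ht1 u a)⟩
  have hcard : Fintype.card (Fin r → Fin M) < Fintype.card (Fin k → Fin (N + 1)) := by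
    simp only [Fintype.card_fun, Fintype.card_fin]
    have h1 : M ^ r = N ^ k := by
      rw [hM, hN, ← pow_mul, ← pow_mul, mul_comm]
    rw [h1]
    exact Nat.pow_lt_pow_left (Nat.lt_succ_self N) hk.ne'
  obtain ⟨u, u', hne, hf⟩ := Fintype.exists_ne_map_eq_of_card_lt f hcard
  refine ⟨fun j => ((u j : ℕ) : ℤ) - ((u' j : ℕ) : ℤ), ?_, ?_, ?_⟩
  · intro h0
    apply hne
    funext j
    have := congrFun h0 j
    simp only [Pi.zero_apply] at this
    apply Fin.ext
    omega
  · intro j
    have h1 : ((u j : ℕ) : ℝ) ≤ N := by exact_mod_cast Nat.lt_succ_iff.mp (u j).isLt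
    have h2 : ((u' j : ℕ) : ℝ) ≤ N := by exact_mod_cast Nat.lt_succ_iff.mp (u' j).isLt
    have h3 : (0 : ℝ) ≤ ((u j : ℕ) : ℝ) := by positivity
    have h4 : (0 : ℝ) ≤ ((u' j : ℕ) : ℝ) := by positivity
    have h5 : (N : ℝ) = (T : ℝ) ^ r := by rw [hN]; push_cast; rfl
    rw [← h5]
    push_cast
    rw [abs_le]
    constructor <;> linarith
  · intro a
    have h5 : (N : ℝ) = (T : ℝ) ^ r := by rw [hN]; push_cast; rfl
    have h6 : (M : ℝ) = (T : ℝ) ^ k := by rw [hM]; push_cast; rfl
    have hfl : ⌊t u a⌋₊ = ⌊t u' a⌋₊ := by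
      have := congrFun hf a
      exact congrArg Fin.val this
    have h7 : |t u a - t u' a| < 1 := by
      have a1 := Nat.floor_le (ht0 u a)
      have a2 := Nat.lt_floor_add_one (t u a)
      have b1 := Nat.floor_le (ht0 u' a)
      have b2 := Nat.lt_floor_add_one (t u' a)
      rw [hfl] at a1 a2
      rw [abs_lt]
      constructor <;> linarith
    have h8 : t u a - t u' a =
        (∑ j, p a j * ((((u j : ℕ) : ℤ) - ((u' j : ℕ) : ℤ) : ℤ) : ℝ)) * (M / (2 * C0 * N)) := by
      have : ∑ j, p a j * ((((u j : ℕ) : ℤ) - ((u' j : ℕ) : ℤ) : ℤ) : ℝ) =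
          ∑ j, p a j * ((u j : ℕ) : ℝ) - ∑ j, p a j * ((u' j : ℕ) : ℝ) := by
        rw [← Finset.sum_sub_distrib]
        apply Finset.sum_congr rfl
        intro j _
        push_cast
        ring
      rw [this]
      simp only [t]
      field_simp
      ring
    rw [h8, abs_mul, abs_of_pos (by positivity : (0 : ℝ) < M / (2 * C0 * N))] at h7
    rw [← h5, ← h6]
    have h9 : (0 : ℝ) < M / (2 * C0 * N) := by positivity
    have h10 : |∑ j, p a j * ((((u j : ℕ) : ℤ) - ((u' j : ℕ) : ℤ) : ℤ) : ℝ)| <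
        1 / (M / (2 * C0 * N)) := by
      rw [lt_div_iff₀ h9]
      exact h7
    have h11 : 1 / ((M : ℝ) / (2 * C0 * N)) = 2 * C0 * N / M := by
      field_simp
    rw [h11] at h10
    exact h10.le


/-! ### rank factorisation -/

theorem factor {ι : Type*} [Fintype ι] {k : ℕ} (v : Fin k → (ι → ℝ)) (r : ℕ)
    (hr : Module.finrank ℝ (Submodule.span ℝ (Set.range v)) = r) :
    ∃ (b : ι → Fin r → ℝ) (p : Fin r → Fin k → ℝ), ∀ i j, v j i = ∑ a, b i a * p a j := by
  subst hr
  set E := Submodule.span ℝ (Set.range v) with hE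
  let B := Module.finBasis ℝ E
  refine ⟨fun i a => (B a : ι → ℝ) i,
    fun a j => B.repr ⟨v j, Submodule.subset_span ⟨j, rfl⟩⟩ a, ?_⟩
  intro i j
  have h := B.sum_repr ⟨v j, Submodule.subset_span ⟨j, rfl⟩⟩
  have h2 := congrArg (fun e : E => (e : ι → ℝ) i) h
  simp only [Submodule.coe_sum, Submodule.coe_smul, Finset.sum_apply, Pi.smul_apply,
    smul_eq_mul] at h2
  rw [← h2]
  apply Finset.sum_congr rfl
  intro a _
  ring

/-! ### small values on a rational subspace -/

/-- Let `w j` be `k` integer vectors, and let the vectors `(l i (w j))`, `i ∈ S`, span a space of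
dimension `r`. Then there are combinations of the `w j` with coefficients at most `T ^ r` at which
the forms `l i`, `i ∈ S`, are at most `C T ^ r / T ^ k`. -/
theorem small {n d k : ℕ} (hk : 0 < k) (g : Matrix (Fin n) (Fin d) ℝ) (S : Finset (Fin n))
    (w : Fin k → Fin d → ℤ)
    (r : ℕ) (hr : Module.finrank ℝ (Submodule.span ℝ
      (Set.range fun j : Fin k => fun i : S => ∑ l, g i l * (w j l : ℝ))) = r) :
    ∃ C : ℝ, 0 < C ∧ ∀ T : ℕ, 1 ≤ T → ∃ u : Fin k → ℤ, u ≠ 0 ∧
      (∀ l, |((∑ j, u j * w j l : ℤ) : ℝ)| ≤ C * (T : ℝ) ^ r) ∧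
      (∀ i, |∑ l, g i l * ((∑ j, u j * w j l : ℤ) : ℝ)| ≤ C * (T : ℝ) ^ r) ∧
      ∀ i ∈ S, |∑ l, g i l * ((∑ j, u j * w j l : ℤ) : ℝ)| ≤ C * (T : ℝ) ^ r / (T : ℝ) ^ k := by
  obtain ⟨b, p, hbp⟩ := factor _ r hr
  obtain ⟨C, hC, hT⟩ := dirichlet r k hk p
  -- constants
  set C1 : ℝ := ∑ j, ∑ l, |(w j l : ℝ)| with hC1
  set C2 : ℝ := ∑ i, ∑ l, |g i l| with hC2
  set C3 : ℝ := ∑ i, ∑ a, |b i a| with hC3
  have hC1' : 0 ≤ C1 := Finset.sum_nonneg fun _ _ => Finset.sum_nonneg fun _ _ => abs_nonneg _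
  have hC2' : 0 ≤ C2 := Finset.sum_nonneg fun _ _ => Finset.sum_nonneg fun _ _ => abs_nonneg _
  have hC3' : 0 ≤ C3 := Finset.sum_nonneg fun _ _ => Finset.sum_nonneg fun _ _ => abs_nonneg _
  refine ⟨1 + C1 + C1 * C2 + C3 * C, by positivity, ?_⟩
  intro T h1T
  obtain ⟨u, hu0, huN, hua⟩ := hT T h1T
  have hTpos : (0 : ℝ) < T := by exact_mod_cast h1T
  have hTr : (0 : ℝ) < (T : ℝ) ^ r := by positivity
  have hTk : (0 : ℝ) < (T : ℝ) ^ k := by positivity
  have hx : ∀ l, |((∑ j, u j * w j l : ℤ) : ℝ)| ≤ C1 * (T : ℝ) ^ r := by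
    intro l
    push_cast
    calc |∑ j, (u j : ℝ) * (w j l : ℝ)| ≤ ∑ j, |(u j : ℝ) * (w j l : ℝ)| :=
          Finset.abs_sum_le_sum_abs _ _
      _ ≤ ∑ j, (T : ℝ) ^ r * |(w j l : ℝ)| := by
          apply Finset.sum_le_sum
          intro j _
          rw [abs_mul]
          exact mul_le_mul_of_nonneg_right (huN j) (abs_nonneg _)
      _ ≤ ∑ j, (T : ℝ) ^ r * ∑ l, |(w j l : ℝ)| := by
          apply Finset.sum_le_sum
          intro j _
          apply mul_le_mul_of_nonneg_left _ hTr.le
          exact Finset.single_le_sum (f := fun l => |(w j l : ℝ)|)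
            (fun l _ => abs_nonneg _) (Finset.mem_univ l)
      _ = C1 * (T : ℝ) ^ r := by rw [← Finset.mul_sum, mul_comm]
  refine ⟨u, hu0, ?_, ?_, ?_⟩
  · intro l
    refine (hx l).trans ?_
    apply mul_le_mul_of_nonneg_right _ hTr.le
    nlinarith [mul_nonneg hC1' hC2', mul_nonneg hC3' hC.le]
  · intro i
    calc |∑ l, g i l * ((∑ j, u j * w j l : ℤ) : ℝ)|
        ≤ ∑ l, |g i l * ((∑ j, u j * w j l : ℤ) : ℝ)| := Finset.abs_sum_le_sum_abs _ _
      _ ≤ ∑ l, |g i l| * (C1 * (T : ℝ) ^ r) := by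
          apply Finset.sum_le_sum
          intro l _
          rw [abs_mul]
          exact mul_le_mul_of_nonneg_left (hx l) (abs_nonneg _)
      _ = (∑ l, |g i l|) * (C1 * (T : ℝ) ^ r) := (Finset.sum_mul _ _ _).symm
      _ ≤ C2 * (C1 * (T : ℝ) ^ r) := by
          apply mul_le_mul_of_nonneg_right _ (by positivity)
          exact Finset.single_le_sum (f := fun i => ∑ l, |g i l|)
            (fun i _ => Finset.sum_nonneg fun l _ => abs_nonneg _) (Finset.mem_univ i)
      _ = (C1 * C2) * (T : ℝ) ^ r := by ring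
      _ ≤ _ := by
          apply mul_le_mul_of_nonneg_right _ hTr.le
          nlinarith [mul_nonneg hC1' hC2', mul_nonneg hC3' hC.le]
  · intro i hi
    have h1 : ∑ l, g i l * ((∑ j, u j * w j l : ℤ) : ℝ) =
        ∑ a, b ⟨i, hi⟩ a * ∑ j, p a j * (u j : ℝ) := by
      calc ∑ l, g i l * ((∑ j, u j * w j l : ℤ) : ℝ)
          = ∑ l, ∑ j, g i l * ((u j : ℝ) * (w j l : ℝ)) := by
            apply Finset.sum_congr rfl
            intro l _
            push_cast
            rw [Finset.mul_sum]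
        _ = ∑ j, ∑ l, g i l * ((u j : ℝ) * (w j l : ℝ)) := Finset.sum_comm
        _ = ∑ j, (u j : ℝ) * ∑ l, g i l * (w j l : ℝ) := by
            apply Finset.sum_congr rfl
            intro j _
            rw [Finset.mul_sum]
            apply Finset.sum_congr rfl
            intro l _
            ring
        _ = ∑ j, (u j : ℝ) * ∑ a, b ⟨i, hi⟩ a * p a j := by
            apply Finset.sum_congr rfl
            intro j _
            have := hbp ⟨i, hi⟩ j
            simp only at this
            rw [this]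
        _ = ∑ j, ∑ a, b ⟨i, hi⟩ a * (p a j * (u j : ℝ)) := by
            apply Finset.sum_congr rfl
            intro j _
            rw [Finset.mul_sum]
            apply Finset.sum_congr rfl
            intro a _
            ring
        _ = ∑ a, ∑ j, b ⟨i, hi⟩ a * (p a j * (u j : ℝ)) := Finset.sum_comm
        _ = ∑ a, b ⟨i, hi⟩ a * ∑ j, p a j * (u j : ℝ) := by
            apply Finset.sum_congr rfl
            intro a _
            rw [Finset.mul_sum]
    rw [h1]
    calc |∑ a, b ⟨i, hi⟩ a * ∑ j, p a j * (u j : ℝ)|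
        ≤ ∑ a, |b ⟨i, hi⟩ a * ∑ j, p a j * (u j : ℝ)| := Finset.abs_sum_le_sum_abs _ _
      _ ≤ ∑ a, |b ⟨i, hi⟩ a| * (C * (T : ℝ) ^ r / (T : ℝ) ^ k) := by
          apply Finset.sum_le_sum
          intro a _
          rw [abs_mul]
          exact mul_le_mul_of_nonneg_left (hua a) (abs_nonneg _)
      _ = (∑ a, |b ⟨i, hi⟩ a|) * (C * (T : ℝ) ^ r / (T : ℝ) ^ k) := by rw [Finset.sum_mul]
      _ ≤ C3 * (C * (T : ℝ) ^ r / (T : ℝ) ^ k) := by
          apply mul_le_mul_of_nonneg_right _ (by positivity)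
          exact Finset.single_le_sum (f := fun i => ∑ a, |b i a|)
            (fun i _ => Finset.sum_nonneg fun l _ => abs_nonneg _) (Finset.mem_univ _)
      _ = (C3 * C) * (T : ℝ) ^ r / (T : ℝ) ^ k := by ring
      _ ≤ _ := by
          apply div_le_div_of_nonneg_right _ hTk.le
          apply mul_le_mul_of_nonneg_right _ hTr.le
          nlinarith [mul_nonneg hC1' hC2', mul_nonneg hC3' hC.le]

/-- Integer vectors spanning a rational subspace. -/
theorem integer_basis {d : ℕ} (W : Submodule ℚ (Fin d → ℚ)) (k : ℕ)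
    (hk : Module.finrank ℚ W = k) :
    ∃ w : Fin k → Fin d → ℤ,
      (∀ j, (fun l => ((w j l : ℤ) : ℚ)) ∈ W) ∧
      ∀ u : Fin k → ℤ, (fun l => ∑ j, u j * w j l) = 0 → u = 0 := by
  subst hk
  let B := Module.finBasis ℚ W
  have hD : ∀ j, ∃ D : ℕ, 0 < D ∧ ∀ l, ∃ z : ℤ, (D : ℚ) * (B j : Fin d → ℚ) l = z := by
    intro j
    refine ⟨∏ l, ((B j : Fin d → ℚ) l).den, Finset.prod_pos fun l _ => Rat.den_pos _, ?_⟩
    intro l
    refine ⟨(∏ l' ∈ Finset.univ.erase l, (((B j : Fin d → ℚ) l').den : ℤ)) *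
      ((B j : Fin d → ℚ) l).num, ?_⟩
    rw [← Finset.prod_erase_mul Finset.univ _ (Finset.mem_univ l)]
    push_cast
    rw [mul_assoc, Rat.den_mul_eq_num]
  choose D hDpos z hz using hD
  refine ⟨fun j l => z j l, ?_, ?_⟩
  · intro j
    have : (fun l => ((z j l : ℤ) : ℚ)) = (D j : ℚ) • (B j : Fin d → ℚ) := by
      funext l
      rw [Pi.smul_apply, smul_eq_mul, hz]
    rw [this]
    exact W.smul_mem _ (B j).2
  · intro u hu
    have h1 : ∑ j, ((u j : ℚ) * D j) • B j = 0 := by
      apply Subtype.ext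
      simp only [Submodule.coe_sum, Submodule.coe_smul, Submodule.coe_zero]
      funext l
      have h2 := congrFun hu l
      simp only [Pi.zero_apply] at h2
      simp only [Finset.sum_apply, Pi.smul_apply, smul_eq_mul, Pi.zero_apply]
      have h3 : ((∑ j, u j * z j l : ℤ) : ℚ) = 0 := by rw [h2]; simp
      rw [← h3]
      push_cast
      apply Finset.sum_congr rfl
      intro j _
      rw [mul_assoc, hz]
    have h4 := (Fintype.linearIndependent_iff.mp B.linearIndependent) _ h1
    funext j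
    have h5 := h4 j
    have h6 : (D j : ℚ) ≠ 0 := by
      have := hDpos j
      positivity
    have h7 : (u j : ℚ) = 0 := (mul_eq_zero.mp h5).resolve_right h6
    exact_mod_cast h7


/-! ### The inequality for rational subspaces -/

theorem pow_bound {a b : ℕ} {κ ν C K : ℝ} (hν : 0 < ν) (hK : 0 ≤ K)
    (r : ℕ) (h : ∀ T : ℕ, 1 ≤ T →
      ν ≤ C * (T : ℝ) ^ a / (T : ℝ) ^ b * (K * (T : ℝ) ^ r) ^ κ) :
    (b : ℝ) ≤ a + κ * r := by
  by_contra hlt
  push Not at hlt
  have hpos : 0 < (b : ℝ) - (a + κ * r) := by linarith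
  have htend : Filter.Tendsto (fun T : ℕ => C * K ^ κ * (T : ℝ) ^ (-((b : ℝ) - (a + κ * r))))
      Filter.atTop (nhds (C * K ^ κ * 0)) := by
    apply Filter.Tendsto.const_mul
    exact (tendsto_rpow_neg_atTop hpos).comp tendsto_natCast_atTop_atTop
  rw [mul_zero] at htend
  have hev := htend.eventually (gt_mem_nhds hν)
  obtain ⟨T, hT1, hT2⟩ := ((Filter.eventually_ge_atTop 1).and hev).exists
  have hTpos : (0 : ℝ) < T := by exact_mod_cast hT1
  have h1 := h T hT1
  have h2 : C * (T : ℝ) ^ a / (T : ℝ) ^ b * (K * (T : ℝ) ^ r) ^ κ =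
      C * K ^ κ * (T : ℝ) ^ (-((b : ℝ) - (a + κ * r))) := by
    rw [Real.mul_rpow hK (by positivity)]
    rw [← Real.rpow_natCast (T : ℝ) a, ← Real.rpow_natCast (T : ℝ) b,
      ← Real.rpow_natCast (T : ℝ) r, ← Real.rpow_mul hTpos.le]
    have : (T : ℝ) ^ (-((b : ℝ) - (a + κ * r))) =
        (T : ℝ) ^ (a : ℝ) / (T : ℝ) ^ (b : ℝ) * (T : ℝ) ^ ((r : ℝ) * κ) := by
      rw [← Real.rpow_sub hTpos, ← Real.rpow_add hTpos]
      congr 1
      ring
    rw [this]
    ring
  rw [h2] at h1
  linarith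

theorem subspace_bound {n d : ℕ} (g : Matrix (Fin n) (Fin d) ℝ) (κ ν : ℝ) (hκ : 0 ≤ κ)
    (hν : 0 < ν)
    (hF : ∀ x : Fin d → ℤ, x ≠ 0 → ν ≤ |F g x| * ‖(fun j => (x j : ℝ))‖ ^ κ)
    (W : Submodule ℚ (Fin d → ℚ)) (S : Finset (Fin n)) :
    (Module.finrank ℚ W : ℝ) * S.card ≤ (n + κ) * rk g S W := by
  rcases Nat.eq_zero_or_pos (Module.finrank ℚ W) with hk | hk
  · rw [hk]
    simp only [Nat.cast_zero, zero_mul]
    positivity
  obtain ⟨k, hkdef⟩ : ∃ k, Module.finrank ℚ W = k := ⟨_, rfl⟩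
  rw [hkdef] at hk ⊢
  obtain ⟨w, hwW, hw0⟩ := integer_basis W k hkdef
  -- the span of the vectors of the basis
  set E := Submodule.span ℝ
      (Set.range fun j : Fin k => fun i : S => ∑ l, g i l * (w j l : ℝ)) with hE
  have hEle : Module.finrank ℝ E ≤ rk g S W := by
    apply Submodule.finrank_mono
    apply Submodule.span_le.mpr
    rintro _ ⟨j, rfl⟩
    apply Submodule.subset_span
    refine ⟨fun l => ((w j l : ℤ) : ℚ), hwW j, ?_⟩
    intro i
    simp
  obtain ⟨C, hC, hT⟩ := small hk g S w (Module.finrank ℝ E) rfl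
  set r := Module.finrank ℝ E with hrdef
  have hmain : ∀ T : ℕ, 1 ≤ T →
      ν ≤ C ^ n * (T : ℝ) ^ (r * n) / (T : ℝ) ^ (k * S.card) * (C * (T : ℝ) ^ r) ^ κ := by
    intro T h1T
    obtain ⟨u, hu0, hx, hall, hS⟩ := hT T h1T
    have hTpos : (0 : ℝ) < T := by exact_mod_cast h1T
    set x : Fin d → ℤ := fun l => ∑ j, u j * w j l with hxdef
    have hx0 : x ≠ 0 := fun h0 => hu0 (hw0 u h0)
    have h1 := hF x hx0
    have hnorm : ‖(fun j => (x j : ℝ))‖ ≤ C * (T : ℝ) ^ r := by
      rw [pi_norm_le_iff_of_nonneg (by positivity)]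
      intro l
      rw [Real.norm_eq_abs]
      exact hx l
    have hFx : |F g x| ≤ C ^ n * (T : ℝ) ^ (r * n) / (T : ℝ) ^ (k * S.card) := by
      unfold F
      rw [Finset.abs_prod]
      calc ∏ i, |∑ j, g i j * (x j : ℝ)|
          ≤ ∏ i, (C * (T : ℝ) ^ r) * (if i ∈ S then 1 / (T : ℝ) ^ k else 1) := by
            apply Finset.prod_le_prod
            · intro i _
              exact abs_nonneg _
            · intro i _
              by_cases hi : i ∈ S
              · rw [if_pos hi]
                have := hS i hi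
                calc |∑ j, g i j * (x j : ℝ)| ≤ C * (T : ℝ) ^ r / (T : ℝ) ^ k := this
                  _ = _ := by ring
              · rw [if_neg hi, mul_one]
                exact hall i
        _ = (∏ i : Fin n, C * (T : ℝ) ^ r) * ∏ i, (if i ∈ S then 1 / (T : ℝ) ^ k else 1) :=
            Finset.prod_mul_distrib
        _ = C ^ n * (T : ℝ) ^ (r * n) / (T : ℝ) ^ (k * S.card) := by
            rw [Finset.prod_const, Finset.card_univ, Fintype.card_fin, Finset.prod_ite_mem,
              Finset.univ_inter, Finset.prod_const, mul_pow, ← pow_mul, div_pow, one_pow,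
              ← pow_mul]
            ring
    calc ν ≤ |F g x| * ‖(fun j => (x j : ℝ))‖ ^ κ := h1
      _ ≤ (C ^ n * (T : ℝ) ^ (r * n) / (T : ℝ) ^ (k * S.card)) * (C * (T : ℝ) ^ r) ^ κ := by
          apply mul_le_mul hFx
          · exact Real.rpow_le_rpow (norm_nonneg _) hnorm hκ
          · exact Real.rpow_nonneg (norm_nonneg _) _
          · positivity
  have h := pow_bound hν hC.le r hmain
  push_cast at h
  calc (k : ℝ) * S.card ≤ (r : ℝ) * n + κ * r := h
    _ = (n + κ) * r := by ring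
    _ ≤ (n + κ) * rk g S W := by
        apply mul_le_mul_of_nonneg_left _ (by positivity)
        exact_mod_cast hEle


/-! ### The dual inequality -/

theorem dual_bound {d : ℕ} (g : Matrix (Fin d) (Fin d) ℝ) (hg : g.det ≠ 0)
    (h1 : ∀ (W : Submodule ℚ (Fin d → ℚ)) (S : Finset (Fin d)),
      Module.finrank ℚ W * S.card ≤ d * rk g S W)
    (R : Submodule ℚ (Fin d → ℚ)) (S : Finset (Fin d)) :
    d * Module.finrank ℝ (realSpan R ⊓ rowSpan g S : Submodule ℝ (Fin d → ℝ)) ≤
      S.card * Module.finrank ℚ R := by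
  classical
  -- the annihilator of `R`
  let B := Module.finBasis ℚ R
  let A : Matrix (Fin (Module.finrank ℚ R)) (Fin d) ℚ := fun a j => (B a : Fin d → ℚ) j
  let W : Submodule ℚ (Fin d → ℚ) := LinearMap.ker (Matrix.mulVecLin A)
  have hWdim : d ≤ Module.finrank ℚ W + Module.finrank ℚ R := by
    have h2 := LinearMap.finrank_range_add_finrank_ker (Matrix.mulVecLin A)
    have h3 : Module.finrank ℚ (LinearMap.range (Matrix.mulVecLin A)) ≤ Module.finrank ℚ R := by
      have := Submodule.finrank_le (LinearMap.range (Matrix.mulVecLin A))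
      simpa using this
    rw [Module.finrank_fin_fun] at h2
    change d ≤ Module.finrank ℚ (LinearMap.ker (Matrix.mulVecLin A)) + _
    omega
  have hWR : ∀ w ∈ W, ∀ q ∈ R, ∑ j, q j * w j = 0 := by
    intro w hw q hq
    have hA : ∀ a, ∑ j, (B a : Fin d → ℚ) j * w j = 0 := by
      intro a
      have h2 : Matrix.mulVecLin A w = 0 := hw
      have h3 := congrFun h2 a
      rw [Matrix.mulVecLin_apply] at h3
      exact h3
    have hq2 := B.sum_repr ⟨q, hq⟩
    have hq3 := congrArg (fun e : R => (e : Fin d → ℚ)) hq2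
    simp only [Submodule.coe_sum, Submodule.coe_smul] at hq3
    rw [← hq3]
    simp only [Finset.sum_apply, Pi.smul_apply, smul_eq_mul, Finset.sum_mul]
    rw [Finset.sum_comm]
    apply Finset.sum_eq_zero
    intro a _
    have := hA a
    calc ∑ j, B.repr ⟨q, hq⟩ a * (B a : Fin d → ℚ) j * w j
        = B.repr ⟨q, hq⟩ a * ∑ j, (B a : Fin d → ℚ) j * w j := by
          rw [Finset.mul_sum]
          apply Finset.sum_congr rfl
          intro j _
          ring
      _ = 0 := by rw [this, mul_zero]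
  have hWRreal : ∀ w ∈ W, ∀ v ∈ realSpan R, ∑ j, v j * ((w j : ℚ) : ℝ) = 0 := by
    intro w hw v hv
    unfold realSpan at hv
    induction hv using Submodule.span_induction with
    | mem x hx =>
      obtain ⟨q, hq, hqx⟩ := hx
      have h2 := hWR w hw q hq
      have h3 : ((∑ j, q j * w j : ℚ) : ℝ) = 0 := by rw [h2]; simp
      rw [← h3]
      push_cast
      apply Finset.sum_congr rfl
      intro j _
      rw [hqx]
    | zero => simp
    | add x y _ _ hx hy =>
      simp only [Pi.add_apply, add_mul, Finset.sum_add_distrib, hx, hy, add_zero]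
    | smul a x _ hx =>
      simp only [Pi.smul_apply, smul_eq_mul, mul_assoc]
      rw [← Finset.mul_sum, hx, mul_zero]
  -- the combination map
  let φ : (S → ℝ) →ₗ[ℝ] (Fin d → ℝ) := Fintype.linearCombination ℝ (fun i : S => g i)
  have hφ : ∀ c : S → ℝ, ∀ j, φ c j = ∑ i : S, c i * g i j := by
    intro c j
    simp [φ, Fintype.linearCombination_apply, Finset.sum_apply]
  have hli : LinearIndependent ℝ (fun i : Fin d => g i) :=
    Matrix.linearIndependent_rows_of_det_ne_zero hg
  have hinj : Function.Injective φ := by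
    have h2 : LinearIndependent ℝ (fun i : S => g i) := hli.comp _ Subtype.val_injective
    exact linearIndependent_iff_injective_fintypeLinearCombination.mp h2
  have hrange : rowSpan g S = LinearMap.range φ := by
    rw [Fintype.range_linearCombination]
    unfold rowSpan
    congr 1
    ext v
    constructor
    · rintro ⟨i, hi, rfl⟩
      exact ⟨⟨i, hi⟩, rfl⟩
    · rintro ⟨⟨i, hi⟩, rfl⟩
      exact ⟨i, hi, rfl⟩
  let P : Submodule ℝ (S → ℝ) := (realSpan R).comap φ
  have hPdim : Module.finrank ℝ P =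
      Module.finrank ℝ (realSpan R ⊓ rowSpan g S : Submodule ℝ (Fin d → ℝ)) := by
    have h2 : (realSpan R ⊓ rowSpan g S : Submodule ℝ (Fin d → ℝ)) = P.map φ := by
      rw [hrange, Submodule.map_comap_eq, inf_comm]
    rw [h2]
    exact LinearEquiv.finrank_eq (Submodule.equivMapOfInjective φ hinj P)
  set E : Submodule ℝ (S → ℝ) := Submodule.span ℝ
    {v : S → ℝ | ∃ w ∈ W, ∀ i : S, v i = ∑ j : Fin d, g i j * ((w j : ℚ) : ℝ)} with hE
  have horth : ∀ c ∈ P, ∀ v ∈ E, ∑ i : S, v i * c i = 0 := by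
    intro c hc v hv
    have hc' : φ c ∈ realSpan R := hc
    induction hv using Submodule.span_induction with
    | mem x hx =>
      obtain ⟨w, hw, hwx⟩ := hx
      have h2 := hWRreal w hw (φ c) hc'
      rw [← h2]
      calc ∑ i : S, x i * c i = ∑ i : S, ∑ j, c i * g i j * ((w j : ℚ) : ℝ) := by
            apply Finset.sum_congr rfl
            intro i _
            rw [hwx i, Finset.sum_mul]
            apply Finset.sum_congr rfl
            intro j _
            ring
        _ = ∑ j, ∑ i : S, c i * g i j * ((w j : ℚ) : ℝ) := Finset.sum_comm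
        _ = ∑ j, φ c j * ((w j : ℚ) : ℝ) := by
            apply Finset.sum_congr rfl
            intro j _
            rw [hφ, Finset.sum_mul]
    | zero => simp
    | add x y _ _ hx hy =>
      simp only [Pi.add_apply, add_mul, Finset.sum_add_distrib, hx, hy, add_zero]
    | smul a x _ hx =>
      simp only [Pi.smul_apply, smul_eq_mul, mul_assoc]
      rw [← Finset.mul_sum, hx, mul_zero]
  have hdisj : Disjoint E P := by
    rw [Submodule.disjoint_def]
    intro v hvE hvP
    have h2 := horth v hvP v hvE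
    have h3 : ∀ i : S, v i * v i = 0 := by
      intro i
      exact (Finset.sum_eq_zero_iff_of_nonneg (fun i _ => mul_self_nonneg (v i))).mp h2 i
        (Finset.mem_univ i)
    funext i
    exact mul_self_eq_zero.mp (h3 i)
  have hsum : Module.finrank ℝ E + Module.finrank ℝ P ≤ S.card := by
    have h2 := Submodule.finrank_add_finrank_le_of_disjoint hdisj
    simpa using h2
  have hrk := h1 W S
  have hrkE : rk g S W = Module.finrank ℝ E := rfl
  rw [hrkE] at hrk
  rw [← hPdim]
  have h4 : d * S.card ≤ (Module.finrank ℚ W + Module.finrank ℚ R) * S.card :=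
    Nat.mul_le_mul_right _ hWdim
  have h5 : d * (Module.finrank ℝ E + Module.finrank ℝ P) ≤ d * S.card :=
    Nat.mul_le_mul_left _ hsum
  have h6 : (Module.finrank ℚ W + Module.finrank ℚ R) * S.card =
      Module.finrank ℚ W * S.card + S.card * Module.finrank ℚ R := by ring
  have h7 : d * (Module.finrank ℝ E + Module.finrank ℝ P) =
      d * Module.finrank ℝ E + d * Module.finrank ℝ P := by ring
  omega

/-- The coefficients of a real vector in terms of rational vectors. -/
theorem rational_hull {d : ℕ} (φ : Fin d → ℝ) :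
    ∃ R : Submodule ℚ (Fin d → ℚ),
      Module.finrank ℚ R ≤ Module.finrank ℚ (Submodule.span ℚ (Set.range φ)) ∧
      φ ∈ realSpan R := by
  have hfin : FiniteDimensional ℚ (Submodule.span ℚ (Set.range φ)) :=
    FiniteDimensional.span_of_finite ℚ (Set.finite_range φ)
  set V := Submodule.span ℚ (Set.range φ) with hV
  let B := Module.finBasis ℚ V
  let q : Fin (Module.finrank ℚ V) → Fin d → ℚ :=
    fun a j => B.repr ⟨φ j, Submodule.subset_span ⟨j, rfl⟩⟩ a
  refine ⟨Submodule.span ℚ (Set.range q), ?_, ?_⟩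
  · have := finrank_range_le_card (R := ℚ) q
    simpa [Set.finrank] using this
  · have h1 : φ = ∑ a, (B a : ℝ) • (fun j => ((q a j : ℚ) : ℝ)) := by
      funext j
      have h2 := B.sum_repr ⟨φ j, Submodule.subset_span ⟨j, rfl⟩⟩
      have h3 := congrArg (fun e : V => (e : ℝ)) h2
      simp only [Submodule.coe_sum, Submodule.coe_smul] at h3
      rw [← h3]
      simp only [Finset.sum_apply, Pi.smul_apply, smul_eq_mul]
      apply Finset.sum_congr rfl
      intro a _
      rw [Rat.smul_def, mul_comm]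
    rw [h1]
    apply Submodule.sum_mem
    intro a _
    apply Submodule.smul_mem
    apply Submodule.subset_span
    exact ⟨q a, Submodule.subset_span ⟨a, rfl⟩, fun j => rfl⟩

theorem combo_bound {d : ℕ} (g : Matrix (Fin d) (Fin d) ℝ)
    (h2 : ∀ (R : Submodule ℚ (Fin d → ℚ)) (S : Finset (Fin d)),
      d * Module.finrank ℝ (realSpan R ⊓ rowSpan g S : Submodule ℝ (Fin d → ℝ)) ≤
        S.card * Module.finrank ℚ R)
    (S : Finset (Fin d)) (φ : Fin d → ℝ) (hφ0 : φ ≠ 0) (hφ : φ ∈ rowSpan g S) :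
    d ≤ S.card * Module.finrank ℚ (Submodule.span ℚ (Set.range φ)) := by
  obtain ⟨R, hR, hφR⟩ := rational_hull φ
  have h3 : 1 ≤ Module.finrank ℝ (realSpan R ⊓ rowSpan g S : Submodule ℝ (Fin d → ℝ)) := by
    rw [Submodule.one_le_finrank_iff]
    intro h0
    apply hφ0
    have : φ ∈ (realSpan R ⊓ rowSpan g S : Submodule ℝ (Fin d → ℝ)) := ⟨hφR, hφ⟩
    rw [h0] at this
    exact (Submodule.mem_bot ℝ).mp this
  calc d = d * 1 := (mul_one d).symm
    _ ≤ d * Module.finrank ℝ (realSpan R ⊓ rowSpan g S : Submodule ℝ (Fin d → ℝ)) :=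
        Nat.mul_le_mul_left _ h3
    _ ≤ S.card * Module.finrank ℚ R := h2 R S
    _ ≤ _ := Nat.mul_le_mul_left _ hR

/-- A rational subspace whose real span contains a common zero of the forms `l i`, `i ∈ S`. -/
theorem rk_lt {n d : ℕ} (g : Matrix (Fin n) (Fin d) ℝ) (S : Finset (Fin n))
    (W : Submodule ℚ (Fin d → ℚ)) (y : Fin d → ℝ) (hy0 : y ≠ 0) (hyW : y ∈ realSpan W)
    (hy : ∀ i ∈ S, ∑ j, g i j * y j = 0) :
    rk g S W + 1 ≤ Module.finrank ℚ W := by
  let L : (Fin d → ℝ) →ₗ[ℝ] (S → ℝ) :=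
    LinearMap.pi fun i : S => ∑ j, (g i j) • LinearMap.proj j
  have hL : ∀ v i, L v i = ∑ j, g i j * v j := by
    intro v i
    simp [L, LinearMap.sum_apply]
  -- the dimension of the real span
  have hdim : Module.finrank ℝ (realSpan W) ≤ Module.finrank ℚ W := by
    let B := Module.finBasis ℚ W
    have h1 : realSpan W ≤ Submodule.span ℝ
        (Set.range fun a : Fin (Module.finrank ℚ W) => fun j => (((B a : Fin d → ℚ) j : ℚ) : ℝ)) := by
      apply Submodule.span_le.mpr
      rintro v ⟨q, hq, hqv⟩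
      have h2 := B.sum_repr ⟨q, hq⟩
      have h3 := congrArg (fun e : W => (e : Fin d → ℚ)) h2
      simp only [Submodule.coe_sum, Submodule.coe_smul] at h3
      have h4 : v = ∑ a, ((B.repr ⟨q, hq⟩ a : ℚ) : ℝ) •
          (fun j => (((B a : Fin d → ℚ) j : ℚ) : ℝ)) := by
        funext j
        have h5 := congrFun h3 j
        simp only [Finset.sum_apply, Pi.smul_apply, smul_eq_mul] at h5
        rw [hqv j]
        simp only [Finset.sum_apply, Pi.smul_apply, smul_eq_mul]
        exact_mod_cast h5.symm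
      rw [h4]
      apply Submodule.sum_mem
      intro a _
      apply Submodule.smul_mem
      apply Submodule.subset_span
      exact ⟨a, rfl⟩
    refine (Submodule.finrank_mono h1).trans ?_
    have := finrank_range_le_card (R := ℝ)
      (fun a : Fin (Module.finrank ℚ W) => fun j => (((B a : Fin d → ℚ) j : ℚ) : ℝ))
    simpa [Set.finrank] using this
  have hset : {v : S → ℝ | ∃ w ∈ W, ∀ i : S, v i = ∑ j : Fin d, g i j * ((w j : ℚ) : ℝ)} =
      L '' {v : Fin d → ℝ | ∃ q ∈ W, ∀ j : Fin d, v j = ((q j : ℚ) : ℝ)} := by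
    ext v
    constructor
    · rintro ⟨w, hw, hv⟩
      refine ⟨fun j => ((w j : ℚ) : ℝ), ⟨w, hw, fun j => rfl⟩, ?_⟩
      funext i
      rw [hL, hv]
    · rintro ⟨u, ⟨w, hw, hu⟩, rfl⟩
      refine ⟨w, hw, ?_⟩
      intro i
      rw [hL]
      apply Finset.sum_congr rfl
      intro j _
      rw [hu]
  have hmap : rk g S W = Module.finrank ℝ ((realSpan W).map L) := by
    have h1 : (realSpan W).map L = Submodule.span ℝ
        {v : S → ℝ | ∃ w ∈ W, ∀ i : S, v i = ∑ j : Fin d, g i j * ((w j : ℚ) : ℝ)} := by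
      rw [hset]
      unfold realSpan
      rw [Submodule.map_span]
    rw [h1]
    rfl
  have h5 : Module.finrank ℝ (LinearMap.range (L.domRestrict (realSpan W))) +
      Module.finrank ℝ (LinearMap.ker (L.domRestrict (realSpan W))) =
      Module.finrank ℝ (realSpan W) := LinearMap.finrank_range_add_finrank_ker _
  have h6 : 1 ≤ Module.finrank ℝ (LinearMap.ker (L.domRestrict (realSpan W))) := by
    rw [Submodule.one_le_finrank_iff]
    intro h0
    have h7 : (⟨y, hyW⟩ : realSpan W) ∈ LinearMap.ker (L.domRestrict (realSpan W)) := by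
      rw [LinearMap.mem_ker, LinearMap.domRestrict_apply]
      funext i
      rw [hL]
      exact hy i i.2
    rw [h0] at h7
    have h8 := (Submodule.mem_bot ℝ).mp h7
    exact hy0 (congrArg Subtype.val h8)
  have h9 : Module.finrank ℝ ((realSpan W).map L) =
      Module.finrank ℝ (LinearMap.range (L.domRestrict (realSpan W))) := by
    have h10 : LinearMap.range (L.domRestrict (realSpan W)) = (realSpan W).map L :=
      LinearMap.range_domRestrict _ _
    rw [h10]
  omega

theorem point_bound {n d : ℕ} (g : Matrix (Fin n) (Fin d) ℝ)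
    (h1 : ∀ (W : Submodule ℚ (Fin d → ℚ)) (S : Finset (Fin n)),
      Module.finrank ℚ W * S.card ≤ n * rk g S W)
    (S : Finset (Fin n)) (y : Fin d → ℝ) (hy0 : y ≠ 0)
    (hy : ∀ i ∈ S, ∑ j, g i j * y j = 0) :
    n ≤ (n - S.card) * Module.finrank ℚ (Submodule.span ℚ (Set.range y)) := by
  obtain ⟨W, hW, hyW⟩ := rational_hull y
  have h2 := rk_lt g S W y hy0 hyW hy
  have h3 := h1 W S
  have hS : S.card ≤ n := by
    have := Finset.card_le_univ S
    simpa using this
  have h4 : n * (rk g S W + 1) ≤ n * Module.finrank ℚ W := Nat.mul_le_mul_left _ h2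
  have h5 : n ≤ (n - S.card) * Module.finrank ℚ W := by
    zify [hS]
    zify at h3 h4
    nlinarith
  exact h5.trans (Nat.mul_le_mul_left _ hW)


/-! ### Limits of forms in the orbit -/

theorem F_orbit {d : ℕ} (g : Matrix (Fin d) (Fin d) ℝ) (a : Fin d → ℝ)
    (γ : Matrix (Fin d) (Fin d) ℤ) (x : Fin d → ℤ) :
    F (Matrix.diagonal a * g * γ.map (Int.cast : ℤ → ℝ)) x =
      (∏ i, a i) * F g (γ.mulVec x) := by
  unfold F
  rw [← Finset.prod_mul_distrib]
  apply Finset.prod_congr rfl
  intro i _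
  have h1 : ∀ j, (Matrix.diagonal a * g * γ.map (Int.cast : ℤ → ℝ)) i j =
      a i * ∑ l, g i l * (γ l j : ℝ) := by
    intro j
    rw [Matrix.mul_apply, Finset.mul_sum]
    apply Finset.sum_congr rfl
    intro l _
    rw [Matrix.diagonal_mul, Matrix.map_apply]
    ring
  calc ∑ j, (Matrix.diagonal a * g * γ.map (Int.cast : ℤ → ℝ)) i j * (x j : ℝ)
      = ∑ j, ∑ l, a i * (g i l * ((γ l j : ℝ) * (x j : ℝ))) := by
        apply Finset.sum_congr rfl
        intro j _
        rw [h1, Finset.mul_sum, Finset.sum_mul]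
        apply Finset.sum_congr rfl
        intro l _
        ring
    _ = ∑ l, ∑ j, a i * (g i l * ((γ l j : ℝ) * (x j : ℝ))) := Finset.sum_comm
    _ = a i * ∑ l, g i l * ((γ.mulVec x l : ℤ) : ℝ) := by
        rw [Finset.mul_sum]
        apply Finset.sum_congr rfl
        intro l _
        simp only [Matrix.mulVec, dotProduct]
        push_cast
        rw [Finset.mul_sum, Finset.mul_sum]

theorem limit_bound {d : ℕ} (g h : Matrix (Fin d) (Fin d) ℝ) (hg : g.det ≠ 0) (ν : ℝ)
    (hF : ∀ x : Fin d → ℤ, x ≠ 0 → ν ≤ |F g x|)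
    (a : ℕ → Fin d → ℝ) (γ : ℕ → Matrix (Fin d) (Fin d) ℤ)
    (ha : ∀ n, |∏ i, a n i| = 1) (hγ : ∀ n, |(γ n).det| = 1)
    (hlim : Filter.Tendsto
      (fun n => Matrix.diagonal (a n) * g * (γ n).map (Int.cast : ℤ → ℝ)) Filter.atTop (nhds h)) :
    h.det ≠ 0 ∧ ∀ x : Fin d → ℤ, x ≠ 0 → ν ≤ |F h x| := by
  constructor
  · have hcont : Continuous fun M : Matrix (Fin d) (Fin d) ℝ => |M.det| :=
      continuous_abs.comp (Continuous.matrix_det continuous_id)
    have h1 := (hcont.tendsto h).comp hlim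
    have h2 : (fun M : Matrix (Fin d) (Fin d) ℝ => |M.det|) ∘
        (fun n => Matrix.diagonal (a n) * g * (γ n).map (Int.cast : ℤ → ℝ)) =
        fun _ => |g.det| := by
      funext n
      simp only [Function.comp]
      rw [Matrix.det_mul, Matrix.det_mul, Matrix.det_diagonal, abs_mul, abs_mul, ha n, one_mul]
      have h3 : ((γ n).map (Int.cast : ℤ → ℝ)).det = (((γ n).det : ℤ) : ℝ) := by
        have := (Int.castRingHom ℝ).map_det (γ n)
        exact this.symm
      rw [h3, ← Int.cast_abs, hγ n]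
      simp
    rw [h2] at h1
    have h4 : |h.det| = |g.det| := (tendsto_nhds_unique h1 tendsto_const_nhds)
    intro h0
    rw [h0, abs_zero] at h4
    exact hg (abs_eq_zero.mp h4.symm)
  · intro x hx
    have hcont : Continuous fun M : Matrix (Fin d) (Fin d) ℝ => |F M x| := by
      unfold F
      fun_prop
    have h1 := (hcont.tendsto h).comp hlim
    apply ge_of_tendsto' h1
    intro n
    simp only [Function.comp]
    rw [F_orbit, abs_mul, ha n, one_mul]
    apply hF
    intro h0
    apply hx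
    have hdet : IsUnit (γ n).det := by
      have := hγ n
      rcases (abs_eq (by norm_num : (0 : ℤ) ≤ 1)).mp this with h3 | h3 <;> rw [h3]
      · exact isUnit_one
      · exact isUnit_one.neg
    have hinj := Matrix.mulVec_injective_of_isUnit ((Matrix.isUnit_iff_isUnit_det _).mpr hdet)
    apply hinj
    rw [h0, Matrix.mulVec_zero]


/-! ### The theorem -/

/-- The product of the rows of `h` is bounded away from zero at the nonzero integer points, and
`det h ≠ 0`: the inequalities of semistability. -/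
theorem semistable {d : ℕ} (h : Matrix (Fin d) (Fin d) ℝ) (hh : h.det ≠ 0) (ν : ℝ) (hν : 0 < ν)
    (hF : ∀ x : Fin d → ℤ, x ≠ 0 → ν ≤ |F h x|) :
    (∀ (W : Submodule ℚ (Fin d → ℚ)) (S : Finset (Fin d)),
      Module.finrank ℚ W * S.card ≤ d * rk h S W) ∧
    (∀ (R : Submodule ℚ (Fin d → ℚ)) (S : Finset (Fin d)),
      d * Module.finrank ℝ (realSpan R ⊓ rowSpan h S : Submodule ℝ (Fin d → ℝ)) ≤
        S.card * Module.finrank ℚ R) ∧
    (∀ (S : Finset (Fin d)) (φ : Fin d → ℝ), φ ≠ 0 → φ ∈ rowSpan h S →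
      d ≤ S.card * Module.finrank ℚ (Submodule.span ℚ (Set.range φ))) ∧
    (∀ (S : Finset (Fin d)) (y : Fin d → ℝ), y ≠ 0 → (∀ i ∈ S, ∑ j, h i j * y j = 0) →
      d ≤ (d - S.card) * Module.finrank ℚ (Submodule.span ℚ (Set.range y))) := by
  have h1 : ∀ (W : Submodule ℚ (Fin d → ℚ)) (S : Finset (Fin d)),
      Module.finrank ℚ W * S.card ≤ d * rk h S W := by
    intro W S
    have := subspace_bound h 0 ν le_rfl hν (by
      intro x hx
      rw [Real.rpow_zero, mul_one]
      exact hF x hx) W S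
    rw [add_zero] at this
    exact_mod_cast this
  have h2 := dual_bound h hh h1
  exact ⟨h1, h2, fun S φ hφ0 hφ => combo_bound h h2 S φ hφ0 hφ,
    fun S y hy0 hy => point_bound h h1 S y hy0 hy⟩

theorem strict {d : ℕ} (hd : d.Prime) (h : Matrix (Fin d) (Fin d) ℝ)
    (h1 : ∀ (W : Submodule ℚ (Fin d → ℚ)) (S : Finset (Fin d)),
      Module.finrank ℚ W * S.card ≤ d * rk h S W)
    (W : Submodule ℚ (Fin d → ℚ)) (S : Finset (Fin d)) (hW0 : W ≠ ⊥) (hW1 : W ≠ ⊤)
    (hS0 : S.Nonempty) (hS1 : S ≠ Finset.univ) :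
    Module.finrank ℚ W * S.card < d * rk h S W := by
  refine lt_of_le_of_ne (h1 W S) ?_
  intro heq
  have hdvd : d ∣ Module.finrank ℚ W * S.card := ⟨_, heq⟩
  have hWpos : 0 < Module.finrank ℚ W := by
    have := (Submodule.one_le_finrank_iff (R := ℚ) (S := W)).mpr hW0
    omega
  have hWlt : Module.finrank ℚ W < d := by
    have := Submodule.finrank_lt (K := ℚ) (s := W) hW1
    simpa using this
  have hSpos : 0 < S.card := hS0.card_pos
  have hSlt : S.card < d := by
    have h3 := (Finset.card_lt_iff_ne_univ S).mpr hS1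
    simpa using h3
  rcases hd.dvd_mul.mp hdvd with h4 | h4
  · exact absurd (Nat.le_of_dvd hWpos h4) (by omega)
  · exact absurd (Nat.le_of_dvd hSpos h4) (by omega)

/-- Let the product of the rows `l i` of the real invertible matrix `g` be bounded away from zero
at the nonzero integer points, and let `h` be a limit of matrices `diag(a) g γ`, `|∏ a i| = 1`,
`γ` integral of determinant `± 1`. -/
theorem result :
    (∀ (d : ℕ) (g : Matrix (Fin d) (Fin d) ℝ), g.det ≠ 0 →
      ∀ ν : ℝ, 0 < ν → (∀ x : Fin d → ℤ, x ≠ 0 → ν ≤ |F g x|) →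
      ∀ (a : ℕ → Fin d → ℝ) (γ : ℕ → Matrix (Fin d) (Fin d) ℤ) (h : Matrix (Fin d) (Fin d) ℝ),
      (∀ n, |∏ i, a n i| = 1) → (∀ n, |(γ n).det| = 1) →
      Filter.Tendsto (fun n => Matrix.diagonal (a n) * g * (γ n).map (Int.cast : ℤ → ℝ))
        Filter.atTop (nhds h) →
      -- (1) rational subspaces
      (∀ (W : Submodule ℚ (Fin d → ℚ)) (S : Finset (Fin d)),
        Module.finrank ℚ W * S.card ≤ d * rk h S W ∧
        (d.Prime → W ≠ ⊥ → W ≠ ⊤ → S.Nonempty → S ≠ Finset.univ →
          Module.finrank ℚ W * S.card < d * rk h S W)) ∧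
      -- (2) spaces of forms with rational coefficients
      (∀ (R : Submodule ℚ (Fin d → ℚ)) (S : Finset (Fin d)),
        d * Module.finrank ℝ (realSpan R ⊓ rowSpan h S : Submodule ℝ (Fin d → ℝ)) ≤
          S.card * Module.finrank ℚ R) ∧
      -- (3) coefficients of the combinations of the forms in `S`
      (∀ (S : Finset (Fin d)) (φ : Fin d → ℝ), φ ≠ 0 → φ ∈ rowSpan h S →
        d ≤ S.card * Module.finrank ℚ (Submodule.span ℚ (Set.range φ))) ∧
      -- (4) coordinates of the common zeros of the forms in `S`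
      (∀ (S : Finset (Fin d)) (y : Fin d → ℝ), y ≠ 0 → (∀ i ∈ S, ∑ j, h i j * y j = 0) →
        d ≤ (d - S.card) * Module.finrank ℚ (Submodule.span ℚ (Set.range y)))) ∧
    -- (5) any number of forms, and lower bounds which tend to zero
    (∀ (n d : ℕ) (g : Matrix (Fin n) (Fin d) ℝ) (κ ν : ℝ), 0 ≤ κ → 0 < ν →
      (∀ x : Fin d → ℤ, x ≠ 0 → ν ≤ |F g x| * ‖(fun j => (x j : ℝ))‖ ^ κ) →
      ∀ (W : Submodule ℚ (Fin d → ℚ)) (S : Finset (Fin n)),
        (Module.finrank ℚ W : ℝ) * S.card ≤ (n + κ) * rk g S W) := by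
  refine ⟨?_, fun n d g κ ν hκ hν hF W S => subspace_bound g κ ν hκ hν hF W S⟩
  intro d g hg ν hν hF a γ h ha hγ hlim
  obtain ⟨hh, hFh⟩ := limit_bound g h hg ν hF a γ ha hγ hlim
  obtain ⟨h1, h2, h3, h4⟩ := semistable h hh ν hν hFh
  exact ⟨fun W S => ⟨h1 W S, fun hd hW0 hW1 hS0 hS1 => strict hd h h1 W S hW0 hW1 hS0 hS1⟩,
    h2, h3, h4⟩

end Pool.Agent.Results.MP_edeaa2_an.Semistability
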