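import Mathlib
import Pool.Agent.helper890_csd.Spec

/-! # MP_edeaa2_an: the spectrum of products of `d ≥ 3` linear forms

Let `d ≥ 3`. For a real invertible `d × d` matrix `g` let `F g` be the product of the linear forms
given by the rows of `g`, and let `nuBar g` be the infimum of `|F g|` over the nonzero integer points
divided by `|det g|`. Two forms are equivalent if one is a nonzero constant times the other after an
integral change of variables of determinant `±1`. Let `N` be the set of the numbers `nuBar g > 0` of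
forms which are not proportional to integral forms; the conjecture of Cassels and Swinnerton-Dyer
says that `N` is empty.

1. `N ∪ {0}` is closed.
2. For every compact set `K` which is disjoint from `N ∪ {0}` there are only finitely many classes of
   forms with `nuBar g ∈ K`, all of them integral.
3. If `N` is not empty, then `N` has a largest element `τ`, `τ ≤ d! / d ^ d`. It is attained by a
   recurrent form whose product attains its minimum. All forms in the orbit closure of a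
   non-integral form with `nuBar = τ` are again non-integral with `nuBar = τ`, and there are
   uncountably many classes of such forms.
4. So for every `ν > 0` there are either only finitely many classes of forms with `nuBar g ≥ ν`,
   all integral, or uncountably many classes of non-integral ones.
5. The conjecture in dimension `d` is equivalent to: for every `ν > 0` there are only countably many
   classes of forms with `nuBar g ≥ ν`.

For `d = 2` Markov's theorem gives the same picture with `τ = 1 / 3`. The proof combines an isolation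
theorem for sequences of forms, uniform in the lower bound (`Pool.Agent.helper890_csd.iso_seq`, from
the exit argument `H715R2.exit_lemma` of the starting files), compactness, and the theorem on
uncountable families `H715R2.uncountable_family` of the starting files. -/

set_option autoImplicit false

open Filter Topology Matrix

namespace Pool.Agent.Results.MP_edeaa2_an.SpectrumThreshold

variable {d : ℕ}

/-- the product of the linear forms given by the rows of `g`, at an integer point -/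
noncomputable def F (g : Matrix (Fin d) (Fin d) ℝ) (x : Fin d → ℤ) : ℝ :=
  ∏ i : Fin d, ∑ j : Fin d, g i j * (x j : ℝ)

/-- the product of the linear forms is proportional to a form with integer coefficients -/
def PropInt (g : Matrix (Fin d) (Fin d) ℝ) : Prop :=
  ∃ c : ℝ, c ≠ 0 ∧ ∀ m : Fin d →₀ ℕ, ∃ z : ℤ, MvPolynomial.coeff m
    (c • (∏ i : Fin d, ∑ j : Fin d,
      MvPolynomial.C (g i j) * MvPolynomial.X j : MvPolynomial (Fin d) ℝ)) = (z : ℝ)

/-- the infimum of `|F g|` over the nonzero integer points, divided by `|det g|` -/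
noncomputable def nuBar (g : Matrix (Fin d) (Fin d) ℝ) : ℝ :=
  (⨅ x : {x : Fin d → ℤ // x ≠ 0}, |F g x.1|) / |g.det|

/-- the forms `F g` and `F h` are equivalent up to a constant factor -/
def Equivalent (g h : Matrix (Fin d) (Fin d) ℝ) : Prop :=
  ∃ (c : ℝ) (γ : Matrix (Fin d) (Fin d) ℤ), c ≠ 0 ∧ |γ.det| = 1 ∧
    ∀ x : Fin d → ℤ, F g x = c * F h (γ *ᵥ x)

/-- The closure of the set of matrices `diag(a) g γ` with `a` positive of product one and `γ`
integral of determinant `±1`. -/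
def OrbitClosure (g : Matrix (Fin d) (Fin d) ℝ) : Set (Matrix (Fin d) (Fin d) ℝ) :=
  closure {h | ∃ (a : Fin d → ℝ) (γ : Matrix (Fin d) (Fin d) ℤ), (∀ i, 0 < a i) ∧ ∏ i, a i = 1 ∧
    |γ.det| = 1 ∧ h = Matrix.diagonal a * g * γ.map (Int.cast : ℤ → ℝ)}

/-- The orbit closure of `h` is minimal. -/
def Recurrent (h : Matrix (Fin d) (Fin d) ℝ) : Prop :=
  ∀ h' ∈ OrbitClosure h, h ∈ OrbitClosure h'

/-- the positive numbers `nuBar g` of the forms which are not proportional to integral forms -/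
def NonIntegralValues (d : ℕ) : Set ℝ :=
  {t | 0 < t ∧ ∃ g : Matrix (Fin d) (Fin d) ℝ, g.det ≠ 0 ∧ ¬ PropInt g ∧ nuBar g = t}

open Pool.Agent.helper890_csd

lemma nuBar_eq (g : Matrix (Fin d) (Fin d) ℝ) : nuBar g = nb g := rfl

lemma closure_eq (g : Matrix (Fin d) (Fin d) ℝ) : OrbitClosure g = closure (H715R2.Orb g) := by
  unfold OrbitClosure H715R2.Orb
  congr 1
  ext h
  constructor
  · rintro ⟨a, γ, ha0, ha1, hγ, hh⟩
    exact ⟨a, γ, ha0, ha1, Int.isUnit_iff_abs_eq.2 hγ, hh⟩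
  · rintro ⟨a, γ, ha0, ha1, hγ, hh⟩
    exact ⟨a, γ, ha0, ha1, Int.isUnit_iff_abs_eq.1 hγ, hh⟩

lemma recurrent_iff (h : Matrix (Fin d) (Fin d) ℝ) :
    Recurrent h ↔ TH314.CSD.Recurrent h := by
  unfold Recurrent TH314.CSD.Recurrent
  simp only [closure_eq]

lemma equivalent_iff (g h : Matrix (Fin d) (Fin d) ℝ) : Equivalent g h ↔ Eqv g h := by
  constructor
  · rintro ⟨c, γ, hc, hγ, heq⟩
    exact ⟨c, γ, hc, Int.isUnit_iff_abs_eq.2 hγ, heq⟩
  · rintro ⟨c, γ, hc, hγ, heq⟩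
    exact ⟨c, γ, hc, Int.isUnit_iff_abs_eq.1 hγ, heq⟩

lemma nb_Nm (i₀ : Fin d) (g : Matrix (Fin d) (Fin d) ℝ) :
    H715R2.nuInf (Nm i₀ g) = nb g := by
  rw [nb, H715R2.nuInf, H715R2.nuInf, div_eq_inv_mul,
    Real.mul_iInf_of_nonneg (inv_nonneg.2 (abs_nonneg _))]
  congr 1
  funext x
  rw [FF_Nm, abs_mul, abs_inv, abs_abs]

lemma nb_one {g : Matrix (Fin d) (Fin d) ℝ} (hdet : |g.det| = 1) : nb g = H715R2.nuInf g := by
  rw [nb, hdet, div_one]

lemma nb_nonneg (hd : 0 < d) (g : Matrix (Fin d) (Fin d) ℝ) : 0 ≤ nb g := by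
  have := H715R2.nonempty_ne hd
  exact div_nonneg (le_ciInf fun x => abs_nonneg _) (abs_nonneg _)

/-- elements of the spectrum come from normalized matrices -/
lemma mem_values_iff (hd : 0 < d) {t : ℝ} : t ∈ NonIntegralValues d ↔
    0 < t ∧ ∃ g : Matrix (Fin d) (Fin d) ℝ, |g.det| = 1 ∧ ¬ PropInt g ∧ H715R2.nuInf g = t := by
  constructor
  · rintro ⟨ht, g, hg, hint, hgt⟩
    refine ⟨ht, Nm ⟨0, hd⟩ g, det_Nm _ hg, fun hP => hint (propInt_of_Nm ⟨0, hd⟩ hg hP), ?_⟩
    rw [nb_Nm]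
    exact hgt
  · rintro ⟨ht, g, hg, hint, hgt⟩
    refine ⟨ht, g, det_ne_of_one hg, hint, ?_⟩
    rw [nuBar_eq, nb_one hg, hgt]

lemma values_le (hd : 0 < d) {t : ℝ} (ht : t ∈ NonIntegralValues d) :
    t ≤ (d.factorial : ℝ) / (d : ℝ) ^ d := by
  obtain ⟨-, g, hg, hint, hgt⟩ := (mem_values_iff hd).1 ht
  exact lev_le hd (Or.inr ⟨g, hg, by rw [← hgt]; exact hasNu_nuInf g, hint⟩)

/-- sequences in the spectrum -/
lemma values_closed (hd : 3 ≤ d) : IsClosed (insert 0 (NonIntegralValues d)) := by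
  have hd0 : 0 < d := by omega
  rw [← isSeqClosed_iff_isClosed]
  intro u μ hu hlim
  have hμ0 : 0 ≤ μ := by
    refine ge_of_tendsto' hlim fun n => ?_
    rcases hu n with h | h
    · rw [h]
    · exact h.1.le
  rcases hμ0.eq_or_lt with h0 | hμ
  · rw [← h0]; exact Set.mem_insert _ _
  · right
    obtain ⟨N, hN⟩ := eventually_atTop.1 (hlim.eventually (lt_mem_nhds (half_lt_self hμ)))
    have hv : ∀ n, ∃ g : Matrix (Fin d) (Fin d) ℝ, |g.det| = 1 ∧ ¬ PropInt g ∧
        H715R2.nuInf g = u (n + N) := by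
      intro n
      rcases hu (n + N) with h0 | h1
      · exfalso
        have := hN (n + N) (Nat.le_add_left _ _)
        rw [h0] at this
        linarith
      · exact ((mem_values_iff hd0).1 h1).2
    choose gs hg1 hg2 hg3 using hv
    have hlim' : Tendsto (fun n => H715R2.nuInf (gs n)) atTop (𝓝 μ) := by
      simp only [hg3]
      exact (tendsto_add_atTop_iff_nat N).2 hlim
    obtain ⟨h, hh1, hh2, hh3⟩ := closed_seq hd (half_pos hμ) gs hg1
      (fun n => HasNu.mono' (hasNu_nuInf (gs n)) (by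
        rw [hg3]; exact (hN (n + N) (Nat.le_add_left _ _)).le)) hlim' hg2
    exact (mem_values_iff hd0).2 ⟨hμ, h, hh1, hh3, hh2⟩

/-- finiteness in compact sets -/
lemma values_finite (hd : 3 ≤ d) (K : Set ℝ) (hK : IsCompact K)
    (hKN : Disjoint K (insert 0 (NonIntegralValues d))) :
    ∃ H : Finset (Matrix (Fin d) (Fin d) ℝ),
      (∀ h ∈ H, h.det ≠ 0 ∧ PropInt h ∧ nuBar h ∈ K) ∧
      ∀ g : Matrix (Fin d) (Fin d) ℝ, g.det ≠ 0 → nuBar g ∈ K →
        PropInt g ∧ ∃ h ∈ H, Equivalent g h := by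
  classical
  have hd0 : 0 < d := by omega
  have h0K : (0 : ℝ) ∉ K := fun h => Set.disjoint_left.1 hKN h (Set.mem_insert _ _)
  obtain ⟨δ, hδ, hball⟩ := Metric.isOpen_iff.1 hK.isClosed.isOpen_compl 0 h0K
  set K' : Set ℝ := K ∩ Set.Ici 0 with hK'
  have hK'c : IsCompact K' := hK.inter_right isClosed_Ici
  have hlow : ∀ t ∈ K', δ ≤ t := by
    rintro t ⟨ht, ht0⟩
    by_contra hlt
    push Not at hlt
    have h5 : t ∈ Metric.ball (0 : ℝ) δ := by
      rw [Metric.mem_ball, Real.dist_eq, sub_zero, abs_of_nonneg ht0]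
      exact hlt
    exact hball h5 ht
  have hall : ∀ g : Matrix (Fin d) (Fin d) ℝ, |g.det| = 1 → H715R2.nuInf g ∈ K' →
      H715R2.PropInt g := by
    intro g hg hgK
    by_contra hint
    exact Set.disjoint_left.1 hKN hgK.1 (Or.inr ((mem_values_iff hd0).2
      ⟨hδ.trans_le (hlow _ hgK), g, hg, hint, rfl⟩))
  obtain ⟨H, hH1, hH2⟩ := finite_off hd hK'c hδ hlow hall
  refine ⟨H, fun h hh => ?_, fun g hg hgK => ?_⟩
  · obtain ⟨h1, h2⟩ := hH1 h hh
    refine ⟨det_ne_of_one h1, hall h h1 h2, ?_⟩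
    rw [nuBar_eq, nb_one h1]
    exact h2.1
  · have h1 : H715R2.nuInf (Nm ⟨0, hd0⟩ g) ∈ K' := by
      rw [nb_Nm]
      exact ⟨hgK, nb_nonneg hd0 g⟩
    have h2 := det_Nm (⟨0, hd0⟩ : Fin d) hg
    obtain ⟨h, hh, hgh⟩ := hH2 _ h2 h1
    exact ⟨propInt_of_Nm _ hg (hall _ h2 h1), h, hh,
      (equivalent_iff _ _).2 ((eqv_Nm _ hg).trans hgh)⟩

theorem result (d : ℕ) (hd : 3 ≤ d) :
    -- 1. the values of non-integral forms are closed
    IsClosed (insert 0 (NonIntegralValues d)) ∧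
    -- 2. finitely many classes with values in a compact set off them
    (∀ K : Set ℝ, IsCompact K → Disjoint K (insert 0 (NonIntegralValues d)) →
      ∃ H : Finset (Matrix (Fin d) (Fin d) ℝ),
        (∀ h ∈ H, h.det ≠ 0 ∧ PropInt h ∧ nuBar h ∈ K) ∧
        ∀ g : Matrix (Fin d) (Fin d) ℝ, g.det ≠ 0 → nuBar g ∈ K →
          PropInt g ∧ ∃ h ∈ H, Equivalent g h) ∧
    -- 3. the largest value of a non-integral form
    ((NonIntegralValues d).Nonempty → ∃ τ ∈ NonIntegralValues d,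
      τ ≤ (d.factorial : ℝ) / (d : ℝ) ^ d ∧ (∀ t ∈ NonIntegralValues d, t ≤ τ) ∧
      (∃ g : Matrix (Fin d) (Fin d) ℝ, g.det ≠ 0 ∧ nuBar g = τ ∧ ¬ PropInt g ∧ Recurrent g ∧
        ∃ x₀ : Fin d → ℤ, x₀ ≠ 0 ∧ |F g x₀| = τ * |g.det|) ∧
      (∀ g : Matrix (Fin d) (Fin d) ℝ, g.det ≠ 0 → nuBar g = τ → ¬ PropInt g →
        ∀ h ∈ OrbitClosure g, ¬ PropInt h ∧ nuBar h = τ) ∧
      ∀ h : ℕ → Matrix (Fin d) (Fin d) ℝ, ∃ g : Matrix (Fin d) (Fin d) ℝ, g.det ≠ 0 ∧
        nuBar g = τ ∧ ¬ PropInt g ∧ ∀ n, ¬ Equivalent g (h n)) ∧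
    -- 4. finitely or uncountably many classes
    (∀ ν : ℝ, 0 < ν →
      (∃ H : Finset (Matrix (Fin d) (Fin d) ℝ), ∀ g : Matrix (Fin d) (Fin d) ℝ, g.det ≠ 0 →
        ν ≤ nuBar g → PropInt g ∧ ∃ h ∈ H, Equivalent g h) ∨
      ∀ h : ℕ → Matrix (Fin d) (Fin d) ℝ, ∃ g : Matrix (Fin d) (Fin d) ℝ, g.det ≠ 0 ∧
        ν ≤ nuBar g ∧ ¬ PropInt g ∧ ∀ n, ¬ Equivalent g (h n)) ∧
    -- 5. the conjecture in dimension `d`
    ((∀ g : Matrix (Fin d) (Fin d) ℝ, g.det ≠ 0 → ¬ PropInt g → nuBar g = 0) ↔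
      ∀ ν : ℝ, 0 < ν → ∃ h : ℕ → Matrix (Fin d) (Fin d) ℝ,
        ∀ g : Matrix (Fin d) (Fin d) ℝ, g.det ≠ 0 → ν ≤ nuBar g → ∃ n, Equivalent g (h n)) := by
  classical
  have hd0 : 0 < d := by omega
  have part1 := values_closed hd
  have part2 := values_finite hd
  -- the largest value
  have part3 : (NonIntegralValues d).Nonempty → ∃ τ ∈ NonIntegralValues d,
      τ ≤ (d.factorial : ℝ) / (d : ℝ) ^ d ∧ (∀ t ∈ NonIntegralValues d, t ≤ τ) ∧
      (∃ g : Matrix (Fin d) (Fin d) ℝ, g.det ≠ 0 ∧ nuBar g = τ ∧ ¬ PropInt g ∧ Recurrent g ∧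
        ∃ x₀ : Fin d → ℤ, x₀ ≠ 0 ∧ |F g x₀| = τ * |g.det|) ∧
      (∀ g : Matrix (Fin d) (Fin d) ℝ, g.det ≠ 0 → nuBar g = τ → ¬ PropInt g →
        ∀ h ∈ OrbitClosure g, ¬ PropInt h ∧ nuBar h = τ) ∧
      ∀ h : ℕ → Matrix (Fin d) (Fin d) ℝ, ∃ g : Matrix (Fin d) (Fin d) ℝ, g.det ≠ 0 ∧
        nuBar g = τ ∧ ¬ PropInt g ∧ ∀ n, ¬ Equivalent g (h n) := by
    rintro ⟨t₀, ht₀⟩
    have hbdd : BddAbove (insert 0 (NonIntegralValues d)) := by
      refine ⟨(d.factorial : ℝ) / (d : ℝ) ^ d, ?_⟩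
      rintro t (rfl | ht)
      · positivity
      · exact values_le hd0 ht
    set τ := sSup (insert 0 (NonIntegralValues d)) with hτd
    have hτmem : τ ∈ insert 0 (NonIntegralValues d) :=
      part1.csSup_mem ⟨0, Set.mem_insert _ _⟩ hbdd
    have hle : ∀ t ∈ NonIntegralValues d, t ≤ τ := fun t ht => le_csSup hbdd (Or.inr ht)
    have hτ0 : 0 < τ := ht₀.1.trans_le (hle t₀ ht₀)
    have hτN : τ ∈ NonIntegralValues d := hτmem.resolve_left hτ0.ne'
    -- the orbit closure of an extremal form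
    have hext : ∀ g : Matrix (Fin d) (Fin d) ℝ, g.det ≠ 0 → nuBar g = τ → ¬ PropInt g →
        ∀ h ∈ OrbitClosure g, ¬ PropInt h ∧ nuBar h = τ := by
      intro g hg hgτ hint h hh
      rw [closure_eq] at hh
      have hg0 : 0 < |g.det| := abs_pos.2 hg
      have h1 : H715R2.nuInf g = τ * |g.det| := by
        rw [nuBar_eq, nb, div_eq_iff hg0.ne'] at hgτ
        exact hgτ
      have hν : 0 < τ * |g.det| := mul_pos hτ0 hg0
      have h2 : H715R2.HasNu g (τ * |g.det|) := by rw [← h1]; exact hasNu_nuInf g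
      have h3 : ¬ PropInt h := not_propInt_cl hd hg hν h2 hint hh
      have h4 : |h.det| = |g.det| := H715R2.abs_det_closure hh
      have h5 : h.det ≠ 0 := by rw [← abs_ne_zero, h4, abs_ne_zero]; exact hg
      have h6 : τ ≤ nuBar h := by
        rw [nuBar_eq, nb, le_div_iff₀ (abs_pos.2 h5), h4]
        exact H715R2.le_nuInf hd0 (H715R2.hasNu_closure h2 hh)
      exact ⟨h3, le_antisymm (hle _ ⟨hτ0.trans_le h6, h, h5, h3, rfl⟩) h6⟩
    obtain ⟨-, g, hg, hint, hgτ⟩ := (mem_values_iff hd0).1 hτN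
    have hgdet := det_ne_of_one hg
    have hgb : nuBar g = τ := by rw [nuBar_eq, nb_one hg, hgτ]
    have hnu : H715R2.HasNu g τ := by rw [← hgτ]; exact hasNu_nuInf g
    refine ⟨τ, hτN, values_le hd0 hτN, hle, ?_, hext, ?_⟩
    · obtain ⟨h, hh, hrec, x₀, hx₀, hmin⟩ := TH314.CSD.exists_recurrent_attained hd0 hτ0 hgdet hnu
      have hh' : h ∈ OrbitClosure g := by rw [closure_eq]; exact hh
      obtain ⟨h1, h2⟩ := hext g hgdet hgb hint h hh'
      have h4 : |h.det| = 1 := (H715R2.abs_det_closure hh).trans hg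
      refine ⟨h, det_ne_of_one h4, h2, h1, (recurrent_iff h).2 hrec, x₀, hx₀, ?_⟩
      rw [h4, mul_one]
      have h5 : H715R2.nuInf h = τ := by rw [← nb_one h4]; exact h2
      have := H715R2.nonempty_ne hd0
      refine le_antisymm ?_ ?_
      · rw [← h5]
        exact le_ciInf fun x => hmin x.1 x.2
      · rw [← h5]
        exact hasNu_nuInf h x₀ hx₀
    · intro h
      obtain ⟨g', hg', -, hint', hne⟩ := H715R2.uncountable_family hd hgdet hτ0 hnu hint h
      obtain ⟨h1, h2⟩ := hext g hgdet hgb hint g' (by rw [closure_eq]; exact hg')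
      refine ⟨g', det_ne_of_one ((H715R2.abs_det_closure hg').trans hg), h2, hint', ?_⟩
      rintro n ⟨c, γ, -, hγ, heq⟩
      obtain ⟨x, hx⟩ := hne n γ c (Int.isUnit_iff_abs_eq.2 hγ)
      exact hx (heq x)
  -- the levels
  have part4 : ∀ ν : ℝ, 0 < ν →
      (∃ H : Finset (Matrix (Fin d) (Fin d) ℝ), ∀ g : Matrix (Fin d) (Fin d) ℝ, g.det ≠ 0 →
        ν ≤ nuBar g → PropInt g ∧ ∃ h ∈ H, Equivalent g h) ∨
      ∀ h : ℕ → Matrix (Fin d) (Fin d) ℝ, ∃ g : Matrix (Fin d) (Fin d) ℝ, g.det ≠ 0 ∧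
        ν ≤ nuBar g ∧ ¬ PropInt g ∧ ∀ n, ¬ Equivalent g (h n) := by
    intro ν hν
    by_cases hcase : ∃ t ∈ NonIntegralValues d, ν ≤ t
    · right
      obtain ⟨t, ht, hνt⟩ := hcase
      obtain ⟨τ, -, -, hle, -, -, hunc⟩ := part3 ⟨t, ht⟩
      intro h
      obtain ⟨g, h1, h2, h3, h4⟩ := hunc h
      exact ⟨g, h1, by rw [h2]; exact hνt.trans (hle t ht), h3, h4⟩
    · left
      push Not at hcase
      set T : ℝ := max ν ((d.factorial : ℝ) / (d : ℝ) ^ d) with hT
      obtain ⟨H, -, hH⟩ := part2 (Set.Icc ν T) isCompact_Icc (by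
        rw [Set.disjoint_left]
        rintro t ⟨ht1, -⟩ (h0 | h1)
        · rw [h0] at ht1
          exact absurd hν (not_lt.2 ht1)
        · exact absurd ht1 (not_le.2 (hcase t h1)))
      refine ⟨H, fun g hg hgν => hH g hg ⟨hgν, ?_⟩⟩
      have h1 : ∀ T' : ℝ, (d.factorial : ℝ) / (d : ℝ) ^ d < T' → nuBar g < T' := by
        intro T' hT'
        have hdd : (0 : ℝ) < (d : ℝ) ^ d := by
          have : (0 : ℝ) < d := by exact_mod_cast hd0
          positivity
        obtain ⟨m, hm, hm2⟩ := H715R2.mink_prod hd0 1 T' one_pos (by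
          rw [mul_one]
          rw [div_lt_iff₀ hdd] at hT'
          rwa [mul_comm] at hT') (Nm ⟨0, hd0⟩ g) (det_Nm _ hg)
        rw [nuBar_eq, ← nb_Nm ⟨0, hd0⟩ g]
        exact (hasNu_nuInf _ m hm).trans_lt hm2
      exact (le_of_forall_gt_imp_ge_of_dense fun T' hT' => (h1 T' hT').le).trans (le_max_right _ _)
  refine ⟨part1, part2, part3, part4, ?_⟩
  constructor
  · intro hconj ν hν
    rcases part4 ν hν with ⟨H, hH⟩ | h
    · refine ⟨fun n => (H.toList).getD n 0, fun g hg hgν => ?_⟩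
      obtain ⟨-, h, hh, hgh⟩ := hH g hg hgν
      obtain ⟨n, hn, hn2⟩ := List.getElem_of_mem (Finset.mem_toList.2 hh)
      refine ⟨n, ?_⟩
      show Equivalent g ((H.toList).getD n 0)
      rw [List.getD_eq_getElem _ _ hn, hn2]
      exact hgh
    · obtain ⟨g, hg, h1, h2, -⟩ := h (fun _ => 0)
      rw [hconj g hg h2] at h1
      exact absurd hν (not_lt.2 h1)
  · intro hcount g hg hint
    by_contra hne
    have hpos : 0 < nuBar g := lt_of_le_of_ne (nb_nonneg hd0 g) (Ne.symm hne)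
    obtain ⟨h, hh⟩ := hcount (nuBar g) hpos
    rcases part4 (nuBar g) hpos with ⟨H, hH⟩ | h'
    · exact hint (hH g hg le_rfl).1
    · obtain ⟨g', hg', h1, -, h3⟩ := h' h
      obtain ⟨n, hn⟩ := hh g' hg' h1
      exact h3 n hn

end Pool.Agent.Results.MP_edeaa2_an.SpectrumThreshold
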